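import Mathlib
import Pool.Agent.Results.MP_dafbe7_nt.HybridMomentsFail

set_option autoImplicit false

/-!
# MP_dafbe7_nt, Q1: no bound `O(T ^ θ)` with `θ < 3` holds for the correlation of two error terms

For every `θ < 3` there are entire elements `F₁`, `F₂` of the Selberg class with real coefficients,
of integer degrees `2 ≤ d₁ < d₂`, such that `∫_1^T E_{f₁}(x) E_{f₂}(x) dx` is positive and larger than
any constant times `T ^ θ` for arbitrarily large `T`. The exponent proposed in Q1 is `1 + σ < 2`.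
-/

namespace Pool.Agent.Results.MP_dafbe7_nt.PowerLoss

open Pool.Agent.H13R3.EM

/-- For every `θ < 3` there are two entire elements of the Selberg class with real coefficients, of
integer degrees `2 ≤ d₁ < d₂`, such that the real number `∫_1^T E_{f₁} E_{f₂}` exceeds `C T ^ θ` for
every `C` and suitable arbitrarily large `T`, although the exponent `1 + σ` of Q1 is less than `2`.
In particular Q1 (as stated in `HybridMomentsFail.Q1`) is false. -/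
theorem result :
    (∀ θ : ℝ, θ < 3 → ∃ (F₁ F₂ : Sel) (d₁ d₂ : ℕ), 2 ≤ d₁ ∧ d₁ < d₂ ∧
      F₁.deg = d₁ ∧ F₂.deg = d₂ ∧ F₁.m0 = 0 ∧ F₂.m0 = 0 ∧
      (∀ n, 1 ≤ n → (F₁.a n).im = 0 ∧ (F₂.a n).im = 0) ∧
      (∀ T : ℝ, (∫ x in (1:ℝ)..T, F₁.err x * F₂.err x).im = 0) ∧
      (∀ C T₀ : ℝ, ∃ T : ℝ, T₀ ≤ T ∧ 1 ≤ T ∧
        C * T ^ θ < (∫ x in (1:ℝ)..T, F₁.err x * F₂.err x).re) ∧
      1 + (((d₁ : ℝ) - 1) / (2 * d₁) + ((d₂ : ℝ) - 1) / (2 * d₂)) < 2) ∧
    ¬ HybridMomentsFail.Q1 := by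
  refine ⟨fun θ hθ => ?_, HybridMomentsFail.result⟩
  obtain ⟨F₁, F₂, a₁, a₂, d₁, d₂, hd1, hd12, hF1, hF2, h10, h20, ha1, ha2, hbig⟩ :=
    HybridMomentsFail.strong θ hθ
  have hint : ∀ T : ℝ, (∫ x in (1:ℝ)..T, F₁.err x * F₂.err x) =
      ((∫ x in (1:ℝ)..T, EE a₁ x * EE a₂ x : ℝ) : ℂ) := by
    intro T
    rw [← intervalIntegral.integral_ofReal]
    refine intervalIntegral.integral_congr fun x _ => ?_
    show F₁.err x * F₂.err x = ((EE a₁ x * EE a₂ x : ℝ) : ℂ)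
    rw [err_eq h10 ha1, err_eq h20 ha2]
    push_cast
    rfl
  refine ⟨F₁, F₂, d₁, d₂, hd1, hd12, hF1, hF2, h10, h20, fun n hn => ?_, fun T => ?_, ?_, ?_⟩
  · rw [ha1 n hn, ha2 n hn]
    exact ⟨Complex.ofReal_im _, Complex.ofReal_im _⟩
  · rw [hint]
    exact Complex.ofReal_im _
  · intro C T₀
    -- the summatory functions are bounded on `[1, T₀]`
    have hE : ∀ (a : ℕ → ℝ) (x : ℝ), x ≤ |T₀| →
        |EE a x| ≤ ∑ n ∈ Finset.Icc 1 ⌊|T₀|⌋₊, |a n| := by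
      intro a x hx
      unfold EE
      refine (Finset.abs_sum_le_sum_abs _ _).trans ?_
      exact Finset.sum_le_sum_of_subset_of_nonneg
        (Finset.Icc_subset_Icc_right (Nat.floor_le_floor hx)) fun _ _ _ => abs_nonneg _
    obtain ⟨B₁, hB₁⟩ : ∃ B : ℝ, B = ∑ n ∈ Finset.Icc 1 ⌊|T₀|⌋₊, |a₁ n| := ⟨_, rfl⟩
    obtain ⟨B₂, hB₂⟩ : ∃ B : ℝ, B = ∑ n ∈ Finset.Icc 1 ⌊|T₀|⌋₊, |a₂ n| := ⟨_, rfl⟩
    have hB1 : 0 ≤ B₁ := hB₁ ▸ Finset.sum_nonneg fun _ _ => abs_nonneg _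
    have hB2 : 0 ≤ B₂ := hB₂ ▸ Finset.sum_nonneg fun _ _ => abs_nonneg _
    -- below `T₀` the integral is at most `M`
    obtain ⟨M, hM⟩ : ∃ M : ℝ, M = B₁ * B₂ * |T₀| := ⟨_, rfl⟩
    have hM0 : 0 ≤ M := by rw [hM]; positivity
    have hsmall : ∀ T : ℝ, 1 ≤ T → T < T₀ → ∫ x in (1:ℝ)..T, EE a₁ x * EE a₂ x ≤ M := by
      intro T hT hTT
      have hT0 : T ≤ |T₀| := hTT.le.trans (le_abs_self _)
      have h1 : ‖∫ x in (1:ℝ)..T, EE a₁ x * EE a₂ x‖ ≤ (B₁ * B₂) * |T - 1| := by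
        refine intervalIntegral.norm_integral_le_of_norm_le_const fun x hx => ?_
        rw [Set.uIoc_of_le hT] at hx
        have hx2 : x ≤ |T₀| := hx.2.trans hT0
        rw [Real.norm_eq_abs, abs_mul]
        exact mul_le_mul (hB₁ ▸ hE a₁ x hx2) (hB₂ ▸ hE a₂ x hx2) (abs_nonneg _) hB1
      have h2 : |T - 1| ≤ |T₀| := by
        rw [abs_of_nonneg (by linarith)]
        linarith
      calc ∫ x in (1:ℝ)..T, EE a₁ x * EE a₂ x ≤ ‖∫ x in (1:ℝ)..T, EE a₁ x * EE a₂ x‖ := by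
            rw [Real.norm_eq_abs]; exact le_abs_self _
        _ ≤ (B₁ * B₂) * |T - 1| := h1
        _ ≤ (B₁ * B₂) * |T₀| := mul_le_mul_of_nonneg_left h2 (by positivity)
        _ = M := hM.symm
    -- a constant which is too large below `T₀`
    obtain ⟨T, hT, hTC⟩ := hbig (|C| + M * |T₀| ^ |θ|)
    have hTp : 0 < T := by linarith
    have hTθ : 0 < T ^ θ := Real.rpow_pos_of_pos hTp θ
    have hP0 : 0 ≤ M * |T₀| ^ |θ| := by positivity
    refine ⟨T, ?_, hT, ?_⟩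
    · by_contra hcon
      push Not at hcon
      have h1 := hsmall T hT hcon
      have hT0 : T ≤ |T₀| := hcon.le.trans (le_abs_self _)
      have h2 : 1 ≤ |T₀| ^ |θ| * T ^ θ := by
        calc (1:ℝ) = T ^ (|θ| - |θ|) := by rw [sub_self, Real.rpow_zero]
          _ ≤ T ^ (|θ| + θ) := Real.rpow_le_rpow_of_exponent_le hT
              (by linarith [neg_abs_le θ, abs_nonneg θ])
          _ = T ^ |θ| * T ^ θ := Real.rpow_add hTp _ _
          _ ≤ |T₀| ^ |θ| * T ^ θ := mul_le_mul_of_nonneg_right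
              (Real.rpow_le_rpow hTp.le hT0 (abs_nonneg _)) hTθ.le
      have h3 : M ≤ (|C| + M * |T₀| ^ |θ|) * T ^ θ := by
        have h4 : M * 1 ≤ M * (|T₀| ^ |θ| * T ^ θ) := mul_le_mul_of_nonneg_left h2 hM0
        have h5 : 0 ≤ |C| * T ^ θ := mul_nonneg (abs_nonneg _) hTθ.le
        nlinarith
      linarith
    · rw [hint, Complex.ofReal_re]
      have h1 : C * T ^ θ ≤ (|C| + M * |T₀| ^ |θ|) * T ^ θ :=
        mul_le_mul_of_nonneg_right (by linarith [le_abs_self C]) hTθ.le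
      linarith
  · have e1 : (2:ℝ) ≤ d₁ := by exact_mod_cast hd1
    have e2 : (2:ℝ) ≤ d₂ := by exact_mod_cast hd1.trans hd12.le
    have e3 : ((d₁ : ℝ) - 1) / (2 * d₁) < 1 / 2 := by
      rw [div_lt_div_iff₀ (by positivity) (by norm_num)]
      linarith
    have e4 : ((d₂ : ℝ) - 1) / (2 * d₂) < 1 / 2 := by
      rw [div_lt_div_iff₀ (by positivity) (by norm_num)]
      linarith
    linarith

end Pool.Agent.Results.MP_dafbe7_nt.PowerLoss
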